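import Pool.Agent.P.MP_3edc48_gt.Gen

set_option autoImplicit false

open Set Filter Topology

namespace Pool.Agent.P.MP_3edc48_gt

lemma exists_closed_cover {s : Set ℝ} (hs : IsMeagre s) :
    ∃ N : ℕ → Set ℝ, (∀ k, IsClosed (N k)) ∧ (∀ k, IsMeagre (N k)) ∧ s ⊆ ⋃ k, N k := by
  obtain ⟨S, hS, hSc, hsS⟩ := isMeagre_iff_countable_union_isNowhereDense.1 hs
  obtain ⟨W, hW⟩ := (hSc.insert ∅).exists_eq_range (insert_nonempty _ _)
  refine ⟨fun k => closure (W k), fun k => isClosed_closure, fun k => ?_, fun y hy => ?_⟩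
  · have : W k ∈ insert ∅ S := hW ▸ mem_range_self k
    rcases this with h | h
    · beta_reduce
      rw [h, closure_empty]
      exact IsMeagre.empty
    · exact (hS _ h).closure.isMeagre
  · obtain ⟨t, ht, hyt⟩ := hsS hy
    have : t ∈ range W := hW ▸ mem_insert_of_mem _ ht
    obtain ⟨k, rfl⟩ := this
    exact mem_iUnion.2 ⟨k, subset_closure hyt⟩

lemma exists_basis : ∃ B : ℕ → Set ℝ, ∀ (y : ℝ) (N : Set ℝ), IsClosed N → y ∉ N →
    ∃ j, y ∈ B j ∧ Disjoint (B j) N := by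
  obtain ⟨b, hbc, -, hb⟩ := TopologicalSpace.exists_countable_basis ℝ
  obtain ⟨B, hB⟩ := (hbc.insert ∅).exists_eq_range (insert_nonempty _ _)
  refine ⟨B, fun y N hN hy => ?_⟩
  obtain ⟨t, ht, hyt, htN⟩ := hb.exists_subset_of_mem_open (show y ∈ Nᶜ from hy) hN.isOpen_compl
  have : t ∈ range B := hB ▸ mem_insert_of_mem _ ht
  obtain ⟨j, rfl⟩ := this
  exact ⟨j, hyt, subset_compl_iff_disjoint_right.1 htN⟩

open Classical in
/-- The point coding the set `x` and, at every element of `x`, an initial part of `c`. -/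
noncomputable def cd (x : Set ℕ) (c : ℕ → Prop) : ℕ → ℕ → Bool := fun m i =>
  decide (m ∈ x ∧ i ≤ m + 1 ∧ (i = 0 ∨ c (i - 1)))

/-- The finitely supported points with last row `n`. -/
def fs (n : ℕ) : Set (ℕ → ℕ → Bool) :=
  {p | p n 0 = true ∧ ∀ m i, p m i = true → m ≤ n ∧ i ≤ n + 1}

lemma exists_embed : ∃ E : (ℕ → ℕ → Bool) → ℝ, Continuous E ∧ Function.Injective E ∧
    ∀ n, ∀ p ∈ fs n, E p ∈ range ((↑) : ℚ → ℝ) := by
  have hc : Continuous (Cardinal.cantorFunction (1 / 3)) := by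
    refine continuous_tsum (u := fun n => (1 / 3 : ℝ) ^ n) (fun n => ?_)
      (summable_geometric_of_lt_one (by norm_num) (by norm_num)) fun n f => ?_
    · exact (continuous_of_discreteTopology
        (f := fun b : Bool => cond b ((1 / 3 : ℝ) ^ n) 0)).comp (continuous_apply n)
    · cases h : f n
      · simp [h]
      · simp [h]
  refine ⟨fun z => Cardinal.cantorFunction (1 / 3) fun t => z t.unpair.1 t.unpair.2,
    hc.comp (continuous_pi fun t => (continuous_apply _).comp (continuous_apply _)),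
    fun z z' h => ?_, fun n p hp => ?_⟩
  · funext m i
    have := congrFun (Cardinal.cantorFunction_injective (by norm_num) (by norm_num) h)
      (Nat.pair m i)
    simpa using this
  · refine ⟨∑ t ∈ (Finset.range (n + 1) ×ˢ Finset.range (n + 2)).image
      (fun q => Nat.pair q.1 q.2), cond (p t.unpair.1 t.unpair.2) ((1 / 3 : ℚ) ^ t) 0, ?_⟩
    simp only [Cardinal.cantorFunction]
    rw [tsum_eq_sum (s := (Finset.range (n + 1) ×ˢ Finset.range (n + 2)).image
      (fun q => Nat.pair q.1 q.2))]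
    · push_cast
      refine Finset.sum_congr rfl fun t _ => ?_
      simp only [Cardinal.cantorFunctionAux]
      cases p t.unpair.1 t.unpair.2 <;> simp
    · intro t ht
      refine Cardinal.cantorFunctionAux_false (Bool.eq_false_iff.2 fun h => ht ?_)
      obtain ⟨h1, h2⟩ := hp.2 _ _ h
      exact Finset.mem_image.2 ⟨t.unpair, Finset.mem_product.2
        ⟨Finset.mem_range.2 (Nat.lt_succ_of_le h1), Finset.mem_range.2 (Nat.lt_succ_of_le h2)⟩,
        Nat.pair_unpair t⟩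

lemma fs_finite (n : ℕ) : (fs n).Finite := by
  refine Finite.of_finite_image (f := fun p (m : Fin (n + 1)) (i : Fin (n + 2)) => p m i)
    (toFinite _) ?_
  intro p hp q hq h
  funext m i
  by_cases hmi : m ≤ n ∧ i ≤ n + 1
  · exact congrFun (congrFun h ⟨m, Nat.lt_succ_of_le hmi.1⟩) ⟨i, Nat.lt_succ_of_le hmi.2⟩
  · rw [Bool.eq_false_iff.2 fun h' => hmi (hp.2 m i h'),
      Bool.eq_false_iff.2 fun h' => hmi (hq.2 m i h')]

lemma fs_disjoint {n m : ℕ} (h : n < m) : Disjoint (fs n) (fs m) := by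
  rw [Set.disjoint_left]
  intro p hp hq
  exact (hp.2 m 0 hq.1).1.not_gt h

lemma exists_depth {O : Set (ℕ → ℕ → Bool)} (hO : IsOpen O) {n : ℕ} (h : fs n ⊆ O) :
    ∃ d : ℕ, ∀ p ∈ fs n, ∀ z : ℕ → ℕ → Bool, (∀ m ≤ d, z m = p m) → z ∈ O := by
  have h1 : ∀ p ∈ fs n, ∀ᶠ d in atTop, ∀ z : ℕ → ℕ → Bool, (∀ m ≤ d, z m = p m) → z ∈ O := by
    intro p hp
    have := hO.mem_nhds (h hp)
    rw [nhds_pi, Filter.mem_pi'] at this
    obtain ⟨I, t, ht, hI⟩ := this
    filter_upwards [eventually_ge_atTop (I.sup id)] with d hd z hz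
    refine hI fun m hm => ?_
    rw [hz m ((Finset.le_sup (f := id) hm).trans hd)]
    exact mem_of_mem_nhds (ht m)
  exact ((eventually_all_finite (fs_finite n)).2 h1).exists

lemma cd_near {x : Set ℕ} (c : ℕ → Prop) {n d : ℕ} (hn : n ∈ x)
    (hd : ∀ m, n < m → m ≤ d → m ∉ x) : ∃ p ∈ fs n, ∀ m ≤ d, cd x c m = p m := by
  refine ⟨fun m => if m ≤ n then cd x c m else fun _ => false, ⟨?_, fun m i h => ?_⟩,
    fun m hm => ?_⟩
  · simp [cd, hn]
  · beta_reduce at h
    split_ifs at h with h1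
    · simp only [cd, decide_eq_true_eq] at h
      exact ⟨h1, h.2.1.trans (Nat.succ_le_succ h1)⟩
  · beta_reduce
    split_ifs with h1
    · rfl
    · funext i
      simp [cd, hd m (not_le.1 h1) hm]

/-- The closed set of points whose code of level `k` does not exclude `y`. -/
def tl (B : ℕ → Set ℝ) (y : ℝ) (k : ℕ) : Set (ℕ → ℕ → Bool) :=
  {z | ∀ m j, y ∈ B j → z m (Nat.pair k j + 1) = false}

lemma tl_closed (B : ℕ → Set ℝ) (y : ℝ) (k : ℕ) : IsClosed (tl B y k) := by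
  simp only [tl, ofPred_forall]
  exact isClosed_iInter fun m => isClosed_iInter fun j => isClosed_iInter fun _ =>
    isClosed_eq ((continuous_apply _).comp (continuous_apply _)) continuous_const

lemma cd_mem_tl {B : ℕ → Set ℝ} (hB : ∀ (y : ℝ) (N : Set ℝ), IsClosed N → y ∉ N →
    ∃ j, y ∈ B j ∧ Disjoint (B j) N) {N : ℕ → Set ℝ} (hN : ∀ k, IsClosed (N k)) {x : Set ℕ}
    (hx : x.Infinite) (y : ℝ) (k : ℕ) :
    cd x (fun t => Disjoint (B t.unpair.2) (N t.unpair.1)) ∈ tl B y k ↔ y ∈ N k := by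
  constructor
  · intro h
    by_contra hy
    obtain ⟨j, hj, hd⟩ := hB y _ (hN k) hy
    obtain ⟨m, hm, hlt⟩ := hx.exists_gt (Nat.pair k j)
    have := h m j hj
    simp only [cd, decide_eq_false_iff_not] at this
    exact this ⟨hm, Nat.succ_le_succ hlt.le, Or.inr (by simpa using hd)⟩
  · intro hy m j hj
    simp only [cd, decide_eq_false_iff_not]
    rintro ⟨-, -, h | h⟩
    · exact Nat.succ_ne_zero _ h
    · simp only [Nat.add_sub_cancel, Nat.unpair_pair] at h
      exact Set.disjoint_left.1 h hj hy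

/-- A family with the gap property, together with the finitely supported points, fails. -/
theorem not_kappaT_union {E : (ℕ → ℕ → Bool) → ℝ} (hEc : Continuous E)
    (hEi : Function.Injective E) {Q : Set ℝ} (hQ : ∀ n, ∀ p ∈ fs n, E p ∈ Q) {I : Type}
    {x : I → Set ℕ} (hx : Gap x) (c : I → ℕ → Prop) :
    ¬ KappaT (range (fun a => E (cd (x a) (c a))) ∪ Q : Set ℝ) := by
  intro H
  obtain ⟨A, hA, O, hOo, hFO, hfin⟩ := H (fun n => Subtype.val ⁻¹' (E '' fs n))
    (fun n => ((fs_finite n).image E).preimage Subtype.val_injective.injOn)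
    (fun n m h => ((disjoint_image_iff hEi).2 (fs_disjoint h)).preimage _)
  choose O' hO'o hO' using fun n => isOpen_induced_iff.1 (hOo n)
  have hd : ∀ n, ∃ d : ℕ, ∀ p ∈ fs n, ∀ z : ℕ → ℕ → Bool, (∀ m ≤ d, z m = p m) →
      z ∈ E ⁻¹' O' n := by
    intro n
    refine exists_depth ((hO'o n).preimage hEc) fun p hp => ?_
    have := hFO n (a := ⟨E p, Or.inr (hQ n p hp)⟩) ⟨p, hp, rfl⟩
    rw [← hO'] at this
    exact this
  choose d hd using hd
  obtain ⟨a, ha⟩ := hx A hA d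
  refine ha ((hfin ⟨_, Or.inl ⟨a, rfl⟩⟩).subset ?_)
  rintro n ⟨hnA, h1, h2⟩
  obtain ⟨p, hp, hpz⟩ := cd_near (c a) h1 h2
  refine ⟨hnA, ?_⟩
  rw [← hO']
  exact hd n p hp _ hpz

section
variable {κ : Cardinal}
  (hκ : IsLeast {c : Cardinal | ∃ A : Set ℝ, Cardinal.mk A = c ∧ ¬ IsMeagre A} κ)
include hκ

lemma exists_families : ∃ (y : κ.ord.ToType → ℝ) (x : κ.ord.ToType → Set ℕ),
    ¬ IsMeagre (range y) ∧ Gap x ∧ ∀ a, (x a).Infinite := by
  classical
  obtain ⟨A, hA, hAm⟩ := hκ.1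
  obtain ⟨p, hp1, hp2⟩ := exists_points
  have hnk : ¬ KappaFrechet
      {f : (A ∪ range (fun q : ℕ × ℕ => p q.1 q.2) : Set ℝ) → ℝ // Continuous f} :=
    not_kappaFrechet hp1 hp2 (fun h => hAm (h.mono subset_union_left))
      fun n k => Or.inr ⟨(n, k), rfl⟩
  obtain ⟨x, hx⟩ := gap_of_not_kappa fun h => hnk h.kappaFrechet
  have h0 := (aleph0_lt hκ).le
  have hle : Cardinal.mk (A ∪ range (fun q : ℕ × ℕ => p q.1 q.2) : Set ℝ) ≤
      Cardinal.mk κ.ord.ToType := by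
    rw [Cardinal.mk_ord_toType]
    exact (Cardinal.mk_union_le _ _).trans (Cardinal.add_le_of_le h0 hA.le
      ((Cardinal.mk_le_aleph0_iff.2 (countable_range _).to_subtype).trans h0))
  have : Nonempty (A ∪ range (fun q : ℕ × ℕ => p q.1 q.2) : Set ℝ) :=
    ⟨⟨p 0 0, Or.inr ⟨(0, 0), rfl⟩⟩⟩
  obtain ⟨e⟩ := (Cardinal.le_def _ _).1 hle
  have hs := Function.invFun_surjective e.injective
  refine ⟨fun a => (Function.invFun e a).1,
    fun a => if (x (Function.invFun e a)).Infinite then x (Function.invFun e a) else univ,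
    fun h => hAm (h.mono fun t ht => ?_), fun D hD h => ?_, fun a => ?_⟩
  · obtain ⟨a, ha⟩ := hs ⟨t, Or.inl ht⟩
    exact ⟨a, congrArg Subtype.val ha⟩
  · obtain ⟨t, ht⟩ := hx D hD h
    obtain ⟨a, rfl⟩ := hs t
    refine ⟨a, ?_⟩
    beta_reduce
    rw [if_pos (ht.mono fun n hn => hn.2.1)]
    exact ht
  · beta_reduce
    split_ifs with h
    · exact h
    · exact infinite_univ

theorem exists_example : ∃ X : Set ℝ, Cardinal.mk X ≤ κ ∧ KappaT X ∧
    ¬ KappaT (X ∪ range ((↑) : ℚ → ℝ) : Set ℝ) := by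
  classical
  obtain ⟨y, x, hy, hx, hxi⟩ := exists_families hκ
  obtain ⟨B, hB⟩ := exists_basis
  obtain ⟨E, hEc, hEi, hEQ⟩ := exists_embed
  have h0 := aleph0_lt hκ
  have hIic : ∀ a : κ.ord.ToType, Cardinal.mk (Iic a) < κ := by
    intro a
    have h1 : Cardinal.mk (Iio a) < κ := by simpa using Cardinal.mk_Iio_lt a
    rw [← Iio_insert]
    exact Cardinal.mk_insert_le.trans_lt
      (Cardinal.add_lt_of_lt h0.le h1 (Cardinal.one_lt_aleph0.trans h0))
  choose N hNc hNm hN using fun a : κ.ord.ToType => exists_closed_cover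
    (isMeagre_of_lt hκ (s := y '' Iic a) (Cardinal.mk_image_le.trans_lt (hIic a)))
  let z : κ.ord.ToType → ℕ → ℕ → Bool := fun a =>
    cd (x a) fun t => Disjoint (B t.unpair.2) (N a t.unpair.1)
  refine ⟨range fun a => E (z a), Cardinal.mk_range_le.trans (Cardinal.mk_ord_toType κ).le, ?_,
    not_kappaT_union hEc hEi hEQ hx _⟩
  intro F hFf hFd
  choose r hr using fun w : range fun a => E (z a) => w.2
  have hM : IsMeagre (⋃ n, ⋃ w ∈ F n, ⋃ k, N (r w) k) :=
    isMeagre_iUnion fun n => isMeagre_biUnion (hFf n).countable fun w _ =>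
      isMeagre_iUnion fun k => hNm _ k
  obtain ⟨_, ⟨g, rfl⟩, hg⟩ := not_subset.1 fun h => hy (hM.mono h)
  obtain ⟨A, hA, O, hOo, hFO, hfin⟩ := expand_of_small
    (fun j : Iic g => (⟨E (z j.1), j.1, rfl⟩ : range fun a => E (z a)))
    (isMeagre_pairs hκ (hIic g)) F hFf hFd
  have hT : ∀ k, IsClosed (E '' tl B (y g) k) := fun k =>
    ((tl_closed B (y g) k).isCompact.image hEc).isClosed
  have hmem : ∀ a k, E (z a) ∈ E '' tl B (y g) k ↔ y g ∈ N a k := fun a k =>
    (hEi.mem_set_image).trans (cd_mem_tl hB (hNc a) (hxi a) _ k)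
  refine ⟨A, hA, fun n => O n ∩ ⋂ k ∈ Iic n, Subtype.val ⁻¹' (E '' tl B (y g) k)ᶜ,
    fun n => (hOo n).inter ((finite_Iic n).isOpen_biInter fun k _ =>
      (hT k).isOpen_compl.preimage continuous_subtype_val),
    fun n => subset_inter (hFO n) (subset_iInter₂ fun k _ w hw hw' => ?_), fun w => ?_⟩
  · rw [← hr w, hmem] at hw'
    exact hg (mem_iUnion.2 ⟨n, mem_iUnion₂.2 ⟨w, hw, mem_iUnion.2 ⟨k, hw'⟩⟩⟩)
  · obtain ⟨_, a, rfl⟩ := w
    rcases le_total a g with h | h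
    · exact (hfin ⟨a, h⟩).subset fun n hn => ⟨hn.1, hn.2.1⟩
    · obtain ⟨k, hk⟩ := mem_iUnion.1 (hN a ⟨g, h, rfl⟩)
      refine (finite_Iio k).subset fun n hn => ?_
      by_contra hkn
      exact mem_iInter₂.1 hn.2.2 k (show k ≤ n from not_lt.1 hkn) ((hmem a k).2 hk)

end

lemma exists_isLeast_nonMeagre :
    ∃ κ, IsLeast {c : Cardinal | ∃ A : Set ℝ, Cardinal.mk A = c ∧ ¬ IsMeagre A} κ :=
  main.imp fun _ h => h.2

theorem main_add : ∃ κ : Cardinal,
    IsLeast {c : Cardinal | ∃ X : Set ℝ, Cardinal.mk X = c ∧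
      KappaFrechet {f : X → ℝ // Continuous f} ∧
      ¬ KappaFrechet {f : (X ∪ range ((↑) : ℚ → ℝ) : Set ℝ) → ℝ // Continuous f}} κ ∧
    IsLeast {c : Cardinal | ∃ A : Set ℝ, Cardinal.mk A = c ∧ ¬ IsMeagre A} κ := by
  obtain ⟨κ, hκ⟩ := exists_isLeast_nonMeagre
  have h0 := aleph0_lt hκ
  have hlow : ∀ X : Set ℝ, ¬ KappaT (X ∪ range ((↑) : ℚ → ℝ) : Set ℝ) → κ ≤ Cardinal.mk X := by
    intro X h
    by_contra hlt
    refine h (kappaT_of_lt hκ ((Cardinal.mk_union_le _ _).trans_lt ?_))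
    exact Cardinal.add_lt_of_lt h0.le (not_le.1 hlt)
      ((Cardinal.mk_le_aleph0_iff.2 (countable_range _).to_subtype).trans_lt h0)
  refine ⟨κ, ⟨?_, ?_⟩, hκ⟩
  · obtain ⟨X, hX, h1, h2⟩ := exists_example hκ
    exact ⟨X, le_antisymm hX (hlow X h2), h1.kappaFrechet,
      fun h => h2 (kappaT_of_kappaFrechet h)⟩
  · rintro c ⟨X, rfl, -, h2⟩
    exact hlow X fun h => h2 h.kappaFrechet

end Pool.Agent.P.MP_3edc48_gt
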