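import Mathlib

set_option autoImplicit false

open Set Filter Topology

namespace Pool.Agent.P.MP_3edc48_gt

/-- The combinatorial property extracted from the failure of the point-finite expansion property. -/
def Gap {X : Type} (x : X → Set ℕ) : Prop :=
  ∀ A : Set ℕ, A.Infinite → ∀ h : ℕ → ℕ, ∃ y,
    {n | n ∈ A ∧ n ∈ x y ∧ ∀ m, n < m → m ≤ h n → m ∉ x y}.Infinite

lemma Gap.select {X : Type} {x : X → Set ℕ} (hx : Gap x) (β : ℕ → Type) [∀ i, Finite (β i)]
    [∀ i, Nonempty (β i)] :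
    ∃ f : X → ∀ i, β i, ∀ D : Set ℕ, D.Infinite → ∀ g : ∀ i, β i,
      ∃ y, {i | i ∈ D ∧ f y i = g i}.Infinite := by
  classical
  obtain ⟨e, he⟩ := Countable.exists_injective_nat (Σ i, β i)
  have hb : ∀ i, ∃ c : ℕ, ∀ b : β i, e ⟨i, b⟩ ≤ c := by
    intro i
    obtain ⟨c, hc⟩ := (finite_range fun b : β i => e ⟨i, b⟩).bddAbove
    exact ⟨c, fun b => hc ⟨b, rfl⟩⟩
  choose c hc using hb
  let P : X → ∀ i, β i → Prop := fun y i b =>
    e ⟨i, b⟩ ∈ x y ∧ ∀ b' : β i, e ⟨i, b'⟩ ∈ x y → e ⟨i, b'⟩ ≤ e ⟨i, b⟩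
  let f : X → ∀ i, β i := fun y i =>
    if h : ∃ b, P y i b then h.choose else Classical.arbitrary _
  have hf : ∀ y i b, P y i b → f y i = b := by
    intro y i b hP
    have h : ∃ b, P y i b := ⟨b, hP⟩
    have h1 : f y i = h.choose := dif_pos h
    have h2 := h.choose_spec
    have h3 : e ⟨i, h.choose⟩ = e ⟨i, b⟩ := le_antisymm (hP.2 _ h2.1) (h2.2 _ hP.1)
    have h4 := he h3
    rw [h1]
    simpa using h4
  refine ⟨f, fun D hD g => ?_⟩
  let a : ℕ → ℕ := fun i => e ⟨i, g i⟩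
  have ha : Function.Injective a := by
    intro i j hij
    have := he hij
    exact congrArg Sigma.fst this
  let h : ℕ → ℕ := fun n => c (Function.invFun a n)
  obtain ⟨y, hy⟩ := hx (a '' D) (hD.image ha.injOn) h
  refine ⟨y, ?_⟩
  refine Infinite.of_image a (hy.mono ?_)
  rintro n ⟨⟨i, hi, rfl⟩, h1, h2⟩
  refine ⟨i, ⟨hi, hf y i (g i) ⟨h1, fun b' hb' => ?_⟩⟩, rfl⟩
  by_contra hlt
  push Not at hlt
  refine h2 _ hlt ?_ hb'
  simp only [h, Function.leftInverse_invFun ha i]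
  exact hc i b'

lemma exists_intervals : ∃ I : ℕ → Set ℝ, (∀ j, IsCompact (I j)) ∧ (∀ j, (I j).Nonempty) ∧
    ∀ j (W : Set ℝ), IsOpen W → Dense W → ∃ j', I j' ⊆ I j ∩ W := by
  have : Nonempty {p : ℚ × ℚ // p.1 < p.2} := ⟨⟨(0, 1), by norm_num⟩⟩
  obtain ⟨e, he⟩ := exists_surjective_nat {p : ℚ × ℚ // p.1 < p.2}
  refine ⟨fun j => Icc ((e j).1.1 : ℝ) ((e j).1.2 : ℝ), fun j => isCompact_Icc, fun j => ?_, ?_⟩
  · exact nonempty_Icc.2 (by exact_mod_cast (e j).2.le)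
  · intro j W hW hd
    have hlt : ((e j).1.1 : ℝ) < ((e j).1.2 : ℝ) := by exact_mod_cast (e j).2
    obtain ⟨z, hz1, hz2⟩ := hd.inter_open_nonempty (Ioo ((e j).1.1 : ℝ) ((e j).1.2 : ℝ))
      isOpen_Ioo (nonempty_Ioo.2 hlt)
    have hn : Ioo ((e j).1.1 : ℝ) ((e j).1.2 : ℝ) ∩ W ∈ 𝓝 z :=
      (isOpen_Ioo.inter hW).mem_nhds ⟨hz1, hz2⟩
    obtain ⟨l, u, hzlu, hsub⟩ := mem_nhds_iff_exists_Ioo_subset.1 hn
    obtain ⟨q, hq1, hq2⟩ := exists_rat_btwn hzlu.1
    obtain ⟨r, hr1, hr2⟩ := exists_rat_btwn hzlu.2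
    have hqr : q < r := by exact_mod_cast hq2.trans hr1
    obtain ⟨j', hj'⟩ := he ⟨(q, r), hqr⟩
    refine ⟨j', fun w hw => ?_⟩
    simp only [hj'] at hw
    have := hsub ⟨hq1.trans_le hw.1, hw.2.trans_lt hr2⟩
    exact ⟨Ioo_subset_Icc_self this.1, this.2⟩

/-- Moves at stage `i`. -/
abbrev Mv (u : ℕ → ℕ) (i : ℕ) : Type := Fin (u i + 1) → Fin (u (i + 1) + 1)

/-- Applying a move to an index. -/
def app {u : ℕ → ℕ} {i : ℕ} (τ : Mv u i) (j : ℕ) : ℕ :=
  if h : j < u i + 1 then (τ ⟨j, h⟩ : ℕ) else 0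

lemma app_le {u : ℕ → ℕ} {i : ℕ} (τ : Mv u i) (j : ℕ) : app τ j ≤ u (i + 1) := by
  unfold app
  split_ifs with h
  · exact Nat.lt_succ_iff.1 (τ ⟨j, h⟩).2
  · exact Nat.zero_le _

open Classical in
/-- The run of a sequence of moves. -/
noncomputable def run (I : ℕ → Set ℝ) (u : ℕ → ℕ) (f : ∀ i, Mv u i) : ℕ → ℕ
  | 0 => 0
  | i + 1 => if I (app (f i) (run I u f i)) ⊆ I (run I u f i) then app (f i) (run I u f i)
      else run I u f i

lemma run_subset (I : ℕ → Set ℝ) (u : ℕ → ℕ) (f : ∀ i, Mv u i) (i : ℕ) :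
    I (run I u f (i + 1)) ⊆ I (run I u f i) := by
  rw [run]
  split_ifs with h
  · exact h
  · exact Subset.rfl

lemma run_le (I : ℕ → Set ℝ) {u : ℕ → ℕ} (hu : Monotone u) (f : ∀ i, Mv u i) (i : ℕ) :
    run I u f i ≤ u i := by
  induction i with
  | zero => exact Nat.zero_le _
  | succ i ih =>
    rw [run]
    split_ifs with h
    · exact app_le _ _
    · exact ih.trans (hu (Nat.le_succ i))

theorem Gap.exists_not_meagre {X : Type} {x : X → Set ℕ} (hx : Gap x) :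
    ∃ z : X × X → ℝ, ¬ IsMeagre (range z) := by
  classical
  obtain ⟨I, hIc, hIn, hI⟩ := exists_intervals
  have hsel := fun u : ℕ → ℕ => hx.select (Mv u)
  choose f hf using hsel
  have hz : ∀ (u : ℕ → ℕ) (g : ∀ i, Mv u i), ∃ z : ℝ, ∀ i, z ∈ I (run I u g i) := by
    intro u g
    obtain ⟨z, hz⟩ := IsCompact.nonempty_iInter_of_sequence_nonempty_isCompact_isClosed
      (fun i => I (run I u g i)) (run_subset I u g) (fun i => hIn _) (hIc _)
      (fun i => (hIc _).isClosed)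
    exact ⟨z, mem_iInter.1 hz⟩
  choose z hz using hz
  let u : X → ℕ → ℕ := fun y => Nat.nth (· ∈ x y)
  refine ⟨fun p => z (u p.1) (f (u p.1) p.2), fun hM => ?_⟩
  obtain ⟨S, hSo, hSd, hSc, hS⟩ := mem_residual_iff.1 hM
  obtain ⟨W, hW⟩ := (hSc.insert univ).exists_eq_range (insert_nonempty _ _)
  have hWo : ∀ k, IsOpen (W k) := by
    intro k
    have : W k ∈ insert univ S := hW ▸ mem_range_self k
    rcases this with h | h
    · rw [h]; exact isOpen_univ
    · exact hSo _ h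
  have hWd : ∀ k, Dense (W k) := by
    intro k
    have : W k ∈ insert univ S := hW ▸ mem_range_self k
    rcases this with h | h
    · rw [h]; exact dense_univ
    · exact hSd _ h
  let W' : ℕ → Set ℝ := fun n => ⋂ k ∈ Iic n, W k
  have hW'o : ∀ n, IsOpen (W' n) := fun n => (finite_Iic n).isOpen_biInter fun k _ => hWo k
  have hW'd : ∀ n, Dense (W' n) := fun n =>
    dense_biInter_of_isOpen (fun k _ => hWo k) (finite_Iic n).countable fun k _ => hWd k
  choose τ hτ using fun n j => hI j (W' n) (hW'o n) (hW'd n)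
  let h : ℕ → ℕ := fun n => (Finset.range (n + 1)).sup (τ n)
  have hh : ∀ n j, j ≤ n → τ n j ≤ h n := fun n j hj =>
    Finset.le_sup (f := τ n) (Finset.mem_range.2 (Nat.lt_succ_of_le hj))
  obtain ⟨y, hy⟩ := hx univ infinite_univ h
  have hinf : (Set.ofPred (· ∈ x y)).Infinite := hy.mono fun n hn => hn.2.1
  have hmono : StrictMono (u y) := Nat.nth_strictMono hinf
  let D : Set ℕ := {i | h (u y i) < u y (i + 1)}
  have hD : D.Infinite := by
    refine Infinite.of_image (u y) (hy.mono ?_)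
    rintro n ⟨-, h1, h2⟩
    have hn : u y (Nat.count (· ∈ x y) n) = n := Nat.nth_count h1
    refine ⟨Nat.count (· ∈ x y) n, ?_, hn⟩
    change h (u y (Nat.count (· ∈ x y) n)) < u y (Nat.count (· ∈ x y) n + 1)
    rw [hn]
    by_contra hle
    push Not at hle
    refine h2 _ ?_ hle (Nat.nth_mem_of_infinite hinf _)
    have := hmono (Nat.lt_succ_self (Nat.count (· ∈ x y) n))
    rwa [hn] at this
  let g : ∀ i, Mv (u y) i := fun i j =>
    ⟨min (τ (u y i) j) (u y (i + 1)), Nat.lt_succ_of_le (min_le_right _ _)⟩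
  obtain ⟨y', hy'⟩ := hf (u y) D hD g
  have hmem : ∀ k, z (u y) (f (u y) y') ∈ W k := by
    intro k
    obtain ⟨i, ⟨hiD, hi⟩, hki⟩ := hy'.exists_gt k
    have hle := run_le I hmono.monotone (f (u y) y') i
    have happ : app (f (u y) y' i) (run I (u y) (f (u y) y') i)
        = τ (u y i) (run I (u y) (f (u y) y') i) := by
      rw [hi]
      unfold app
      rw [dif_pos (Nat.lt_succ_of_le hle)]
      exact min_eq_left ((hh _ _ hle).trans (le_of_lt hiD))
    have hsub := hτ (u y i) (run I (u y) (f (u y) y') i)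
    have hrun : run I (u y) (f (u y) y') (i + 1) = τ (u y i) (run I (u y) (f (u y) y') i) := by
      rw [run, happ, if_pos (hsub.trans inter_subset_left)]
    have h1 := hz (u y) (f (u y) y') (i + 1)
    rw [hrun] at h1
    have h2 := (hsub h1).2
    exact mem_iInter₂.1 h2 k (hki.le.trans (hmono.le_apply))
  refine hS (a := z (u y) (f (u y) y')) ?_ ⟨(y, y'), rfl⟩
  intro t ht
  have : t ∈ range W := hW ▸ mem_insert_of_mem _ ht
  obtain ⟨k, rfl⟩ := this
  exact hmem k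

end Pool.Agent.P.MP_3edc48_gt
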