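import Mathlib

set_option autoImplicit false

namespace Pool.Agent.P.MP_3edc48_gt

/-- `Y` is kappa-Frechet: whenever `U` is open and `x` lies in the closure of `U` but not in `U`,
some countably infinite subset `B` of `U` converges to `x`. -/
def KappaFrechet (Y : Type) [TopologicalSpace Y] : Prop :=
  ∀ (x : Y) (U : Set Y), IsOpen U → x ∈ closure U → x ∉ U →
    ∃ B : Set Y, B ⊆ U ∧ Cardinal.mk B = Cardinal.aleph0 ∧ x ∉ B ∧
      ∀ V ∈ nhds x, (B \ V).Finite

end Pool.Agent.P.MP_3edc48_gt
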