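import Pool.Agent.P.MP_3edc48_gt.Upper

set_option autoImplicit false

open Set Filter Topology

namespace Pool.Agent.P.MP_3edc48_gt

variable {X : Type} [TopologicalSpace X]

/-- The property of Sakai: every disjoint sequence of finite sets has a subsequence with a
point-finite open expansion. -/
def KappaT (X : Type) [TopologicalSpace X] : Prop :=
  ∀ F : ℕ → Set X, (∀ n, (F n).Finite) → (∀ n m, n < m → Disjoint (F n) (F m)) →
    ∃ A : Set ℕ, A.Infinite ∧ ∃ O : ℕ → Set X, (∀ n, IsOpen (O n)) ∧ (∀ n, F n ⊆ O n) ∧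
      ∀ y, {n | n ∈ A ∧ y ∈ O n}.Finite

lemma exists_bump [CompletelyRegularSpace X] {F O : Set X} (hF : F.Finite) (hO : IsOpen O)
    (hFO : F ⊆ O) : ∃ φ : C(X, ℝ), (∀ y, y ∉ O → φ y = 0) ∧ ∀ p ∈ F, φ p = 1 := by
  classical
  have h : ∀ p : F, ∃ f : X → unitInterval, Continuous f ∧ f p.1 = 0 ∧ EqOn f 1 Oᶜ := fun p =>
    CompletelyRegularSpace.completely_regular p.1 Oᶜ hO.isClosed_compl (fun h => h (hFO p.2))
  choose f hfc hf0 hf1 using h
  have := hF.fintype
  refine ⟨⟨fun y => 1 - ∏ p : F, (f p y : ℝ), continuous_const.sub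
    (continuous_finsetProd _ fun p _ => continuous_subtype_val.comp (hfc p))⟩, ?_, ?_⟩
  · intro y hy
    change 1 - ∏ p : F, (f p y : ℝ) = 0
    rw [Finset.prod_eq_one, sub_self]
    intro p _
    rw [hf1 p hy]
    rfl
  · intro p hp
    change 1 - ∏ q : F, (f q p : ℝ) = 1
    rw [Finset.prod_eq_zero (Finset.mem_univ (⟨p, hp⟩ : F)), sub_zero]
    rw [hf0 ⟨p, hp⟩]
    rfl

theorem KappaT.kappaFrechet [CompletelyRegularSpace X] (hX : KappaT X) : KappaFrechet {f : X → ℝ // Continuous f} := by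
  classical
  intro f U hU hf hfU
  have step : ∀ (E : Finset X) (n : ℕ), ∃ g : {f : X → ℝ // Continuous f},
      (∀ x ∈ E, |g.1 x - f.1 x| < 1 / ((n : ℝ) + 1)) ∧ ∃ E' : Finset X,
        ∀ h : {f : X → ℝ // Continuous f}, (∀ x ∈ E', h.1 x = g.1 x) → h ∈ U := by
    intro E n
    have hN : {g : {f : X → ℝ // Continuous f} |
        ∀ x ∈ E, |g.1 x - f.1 x| < 1 / ((n : ℝ) + 1)} ∈ 𝓝 f := by
      have : ∀ᶠ g : {f : X → ℝ // Continuous f} in 𝓝 f,
          ∀ x ∈ E, |g.1 x - f.1 x| < 1 / ((n : ℝ) + 1) := by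
        rw [Filter.eventually_all_finset]
        intro x _
        have hc : Continuous fun g : {f : X → ℝ // Continuous f} => |g.1 x - f.1 x| :=
          (((continuous_apply x).comp continuous_subtype_val).sub continuous_const).abs
        refine (isOpen_lt hc continuous_const).mem_nhds ?_
        simp only [mem_ofPred_eq, sub_self, abs_zero]
        positivity
      exact this
    obtain ⟨g, hg1, hg2⟩ := mem_closure_iff_nhds.1 hf _ hN
    exact ⟨g, hg1, exists_finset_of_nhds g (hU.mem_nhds hg2)⟩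
  choose g hg E' hE' using step
  let E : ℕ → Finset X := fun n => Nat.rec ∅ (fun n En => En ∪ E' En n) n
  have hEs : ∀ n, E (n + 1) = E n ∪ E' (E n) n := fun n => rfl
  have hEm : Monotone E := monotone_nat_of_le_succ fun n => by
    rw [hEs]; exact Finset.subset_union_left
  obtain ⟨A, hA, O, hOo, hFO, hfin⟩ := hX (fun n => ((E (n + 1) \ E n : Finset X) : Set X))
    (fun n => Finset.finite_toSet _) (by
    intro n m hnm
    rw [Finset.disjoint_coe, Finset.disjoint_left]
    intro x hx hx'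
    exact (Finset.mem_sdiff.1 hx').2 (hEm hnm (Finset.mem_sdiff.1 hx).1))
  have hφ : ∀ n, ∃ φ : C(X, ℝ), (∀ y, y ∉ O n → φ y = 0) ∧
      ∀ p ∈ E (n + 1) \ E n, φ p = 1 := fun n =>
    exists_bump (Finset.finite_toSet _) (hOo n) (hFO n)
  choose φ hφ0 hφ1 using hφ
  let δ : ℕ → ℝ := fun n => 1 / ((n : ℝ) + 1)
  have hδ : ∀ n, 0 < δ n := fun n => by positivity
  let d : ℕ → X → ℝ := fun n x => (g (E n) n).1 x - f.1 x
  let d' : ℕ → X → ℝ := fun n x => max (-δ n) (min (δ n) (d n x))
  have hdc : ∀ n, Continuous (d n) := fun n => (g (E n) n).2.sub f.2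
  have hd'c : ∀ n, Continuous (d' n) := fun n =>
    continuous_const.max (continuous_const.min (hdc n))
  let h : ℕ → {f : X → ℝ // Continuous f} := fun n =>
    ⟨fun x => f.1 x + d' n x + φ n x * (d n x - d' n x),
      (f.2.add (hd'c n)).add ((φ n).continuous.mul ((hdc n).sub (hd'c n)))⟩
  have hhU : ∀ n, h n ∈ U := by
    intro n
    apply hE' (E n) n
    intro x hx
    change f.1 x + d' n x + φ n x * (d n x - d' n x) = (g (E n) n).1 x
    rcases em (x ∈ E n) with hxE | hxE
    · have h1 : |d n x| < δ n := hg (E n) n x hxE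
      rw [abs_lt] at h1
      have h2 : d' n x = d n x := by
        simp only [d']
        rw [min_eq_right h1.2.le, max_eq_right h1.1.le]
      rw [h2]
      simp only [d]
      ring
    · have : x ∈ E (n + 1) \ E n :=
        Finset.mem_sdiff.2 ⟨by rw [hEs]; exact Finset.mem_union_right _ hx, hxE⟩
      rw [hφ1 n x this]
      simp only [d]
      ring
  have hT : Tendsto h (cofinite ⊓ 𝓟 A) (𝓝 f) := by
    rw [tendsto_subtype_rng, tendsto_pi_nhds]
    intro x
    have hδT : Tendsto δ (cofinite ⊓ 𝓟 A) (𝓝 0) := by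
      refine Tendsto.mono_left ?_ inf_le_left
      rw [Nat.cofinite_eq_atTop]
      exact tendsto_one_div_add_atTop_nhds_zero_nat
    have hev : ∀ᶠ n in cofinite ⊓ 𝓟 A, x ∉ O n := by
      rw [eventually_inf_principal, eventually_cofinite]
      refine (hfin x).subset ?_
      intro n hn
      by_contra hcon
      exact hn fun hA' hex => hcon ⟨hA', hex⟩
    rw [tendsto_iff_dist_tendsto_zero]
    refine squeeze_zero' (Eventually.of_forall fun n => dist_nonneg) (hev.mono ?_) hδT
    intro n hn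
    change dist (f.1 x + d' n x + φ n x * (d n x - d' n x)) (f.1 x) ≤ δ n
    rw [hφ0 n x hn, Real.dist_eq]
    have : f.1 x + d' n x + 0 * (d n x - d' n x) - f.1 x = d' n x := by ring
    rw [this, abs_le]
    exact ⟨le_max_left _ _, max_le (by linarith [hδ n]) (min_le_left _ _)⟩
  have hV : ∀ V ∈ 𝓝 f, {n | n ∈ A ∧ h n ∉ V}.Finite := by
    intro V hV
    have := hT.eventually_mem hV
    rw [eventually_inf_principal, eventually_cofinite] at this
    refine this.subset ?_
    intro n hn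
    simpa using hn
  have hfB : f ∉ h '' A := by
    rintro ⟨n, -, hn⟩
    exact hfU (hn ▸ hhU n)
  have hBinf : (h '' A).Infinite := by
    intro hB
    refine hA ((hV _ (hB.isClosed.isOpen_compl.mem_nhds hfB)).subset ?_)
    intro n hn
    exact ⟨hn, fun h' => h' ⟨n, hn, rfl⟩⟩
  refine ⟨h '' A, ?_, ?_, hfB, fun V hV' => ((hV V hV').image h).subset ?_⟩
  · rintro _ ⟨n, -, rfl⟩
    exact hhU n
  · have := hBinf.to_subtype
    have : Countable (h '' A) := ((Set.to_countable A).image h).to_subtype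
    exact Cardinal.mk_eq_aleph0 _
  · rintro _ ⟨⟨n, hn, rfl⟩, hnV⟩
    exact ⟨n, ⟨hn, hnV⟩, rfl⟩

theorem kappaT_of_kappaFrechet [T35Space X] (H : KappaFrechet {f : X → ℝ // Continuous f}) :
    KappaT X := by
  classical
  intro F hFf hFd
  by_cases hemp : {n | F n = ∅}.Infinite
  · refine ⟨_, hemp, fun n => if F n = ∅ then ∅ else univ, fun n => ?_, fun n => ?_, fun y => ?_⟩
    · beta_reduce
      split_ifs
      · exact isOpen_empty
      · exact isOpen_univ
    · beta_reduce
      split_ifs with h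
      · exact h.subset
      · exact subset_univ _
    · refine finite_empty.subset ?_
      rintro n ⟨h1, h2⟩
      beta_reduce at h2
      rw [if_pos (show F n = ∅ from h1)] at h2
      exact h2
  rw [not_infinite] at hemp
  have hone : ∀ x : X, {n | x ∈ F n}.Subsingleton := by
    intro x n hn m hm
    rcases lt_trichotomy n m with h | h | h
    · exact (Set.disjoint_left.1 (hFd n m h) hn hm).elim
    · exact h
    · exact (Set.disjoint_left.1 (hFd m n h) hm hn).elim
  let U : Set {f : X → ℝ // Continuous f} :=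
    ⋃ n ∈ {n | F n ≠ ∅}, ⋂ p ∈ F n, {g | 1 < g.1 p}
  have hev : ∀ x : X, Continuous fun g : {f : X → ℝ // Continuous f} => g.1 x := fun x =>
    (continuous_apply x).comp continuous_subtype_val
  have hU : IsOpen U := isOpen_biUnion fun n _ => (hFf n).isOpen_biInter fun p _ =>
    isOpen_lt continuous_const (hev _)
  let z : {f : X → ℝ // Continuous f} := ⟨fun _ => 0, continuous_const⟩
  have hzU : z ∉ U := by
    intro h
    obtain ⟨n, hn, hz⟩ := mem_iUnion₂.1 h
    obtain ⟨p, hp⟩ := nonempty_iff_ne_empty.2 hn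
    have : (1 : ℝ) < 0 := mem_iInter₂.1 hz p hp
    linarith
  have hzc : z ∈ closure U := by
    rw [mem_closure_iff_nhds]
    intro V hV
    obtain ⟨E, hE⟩ := exists_finset_of_nhds z hV
    have hfin : ({n | F n = ∅} ∪ ⋃ x ∈ E, {n | x ∈ F n}).Finite :=
      hemp.union (E.finite_toSet.biUnion fun x _ => (hone x).finite)
    obtain ⟨n, hn⟩ := hfin.exists_notMem
    obtain ⟨φ, h0, h1⟩ := exists_bump (hFf n) E.finite_toSet.isClosed.isOpen_compl
      (fun p hp hpE => hn (Or.inr (mem_iUnion₂.2 ⟨p, hpE, hp⟩)))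
    refine ⟨⟨fun x => 2 * φ x, continuous_const.mul φ.continuous⟩, hE _ ?_, ?_⟩
    · intro x hx
      change 2 * φ x = 0
      rw [h0 x (fun h => h hx)]
      simp
    · refine mem_iUnion₂.2 ⟨n, fun h => hn (Or.inl h), mem_iInter₂.2 fun p hp => ?_⟩
      change 1 < 2 * φ p
      rw [h1 p hp]
      norm_num
  obtain ⟨B, hBU, hB, -, hconv⟩ := H z U hU hzc hzU
  obtain ⟨e⟩ : Nonempty (ℕ ≃ B) := Cardinal.eq.1 (by rw [hB, Cardinal.mk_nat])
  let b : ℕ → {f : X → ℝ // Continuous f} := fun i => (e i).1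
  have hb : Function.Injective b := Subtype.val_injective.comp e.injective
  have hbB : ∀ i, b i ∈ B := fun i => (e i).2
  have hfin : ∀ x : X, {i | 1 < (b i).1 x}.Finite := by
    intro x
    have hV : {g : {f : X → ℝ // Continuous f} | g.1 x < 1} ∈ 𝓝 z :=
      (isOpen_lt (hev x) continuous_const).mem_nhds (by
        change (0 : ℝ) < 1
        norm_num)
    refine ((hconv _ hV).preimage hb.injOn).subset ?_
    intro i hi
    exact ⟨hbB i, fun h => lt_asymm (show 1 < (b i).1 x from hi) h⟩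
  have hn : ∀ i, ∃ n, (F n).Nonempty ∧ ∀ p ∈ F n, 1 < (b i).1 p := by
    intro i
    obtain ⟨n, hn, h⟩ := mem_iUnion₂.1 (hBU (hbB i))
    exact ⟨n, nonempty_iff_ne_empty.2 hn, fun p hp => mem_iInter₂.1 h p hp⟩
  choose n hne hn using hn
  have hinf : (range n).Infinite := by
    intro hf
    rw [← image_univ] at hf
    refine infinite_univ (Finite.of_finite_fibers n hf fun c hc => ?_)
    obtain ⟨i, -, rfl⟩ := hc
    obtain ⟨p, hp⟩ := hne i
    refine (hfin p).subset ?_
    rintro j ⟨-, hj⟩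
    exact hn j p ((show n j = n i from hj) ▸ hp)
  refine ⟨range n, hinf, fun m => if h : ∃ i, n i = m then {x | 1 < (b h.choose).1 x} else univ,
    fun m => ?_, fun m => ?_, fun y => ?_⟩
  · beta_reduce
    split_ifs with h
    · exact isOpen_lt continuous_const (b _).2
    · exact isOpen_univ
  · beta_reduce
    split_ifs with h
    · intro p hp
      exact hn _ p (h.choose_spec.symm ▸ hp)
    · exact subset_univ _
  · refine ((hfin y).image n).subset ?_
    rintro m ⟨h, hy⟩
    have h' : ∃ i, n i = m := h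
    beta_reduce at hy
    rw [dif_pos h'] at hy
    exact ⟨h'.choose, hy, h'.choose_spec⟩

/-- Point-finite expansions with respect to a small family of points. -/
theorem expand_of_small [T2Space X] {J : Type} (w : J → X)
    (hJ : ∀ z : J × J → ℝ, IsMeagre (range z)) (F : ℕ → Set X) (hFf : ∀ n, (F n).Finite)
    (hFd : ∀ n m, n < m → Disjoint (F n) (F m)) :
    ∃ A : Set ℕ, A.Infinite ∧ ∃ O : ℕ → Set X, (∀ n, IsOpen (O n)) ∧ (∀ n, F n ⊆ O n) ∧
      ∀ j, {n | n ∈ A ∧ w j ∈ O n}.Finite := by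
  by_contra H
  push Not at H
  have hsep : ∀ m n, ∃ V W : Set X, IsOpen V ∧ IsOpen W ∧ F m ⊆ V ∧ F n ⊆ W ∧
      (n < m → Disjoint V W) := by
    intro m n
    by_cases h : n < m
    · obtain ⟨V, W, hV, hW, h1, h2, h3⟩ := SeparatedNhds.of_isCompact_isCompact
        (hFf m).isCompact (hFf n).isCompact (hFd n m h).symm
      exact ⟨V, W, hV, hW, h1, h2, fun _ => h3⟩
    · exact ⟨univ, univ, isOpen_univ, isOpen_univ, subset_univ _, subset_univ _,
        fun h' => (h h').elim⟩
  choose V W hV hW hFV hFW hVW using hsep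
  let V' : ℕ → Set X := fun m => ⋂ n ∈ Iio m, V m n
  have hgap : Gap fun j => {n | w j ∈ V' n} := by
    intro A hA h
    obtain ⟨j, hj⟩ := H A hA (fun n => V' n ∩ ⋂ m ∈ Iic (h n), W m n)
      (fun n => ((finite_Iio n).isOpen_biInter fun k _ => hV n k).inter
        ((finite_Iic _).isOpen_biInter fun m _ => hW m n))
      (fun n => subset_inter (subset_iInter₂ fun k _ => hFV n k)
        (subset_iInter₂ fun m _ => hFW m n))
    refine ⟨j, Set.Infinite.mono ?_ hj⟩
    rintro n ⟨hnA, h1, h2⟩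
    refine ⟨hnA, h1, fun m hnm hm h3 => ?_⟩
    exact Set.disjoint_left.1 (hVW m n hnm) (mem_iInter₂.1 h3 n hnm) (mem_iInter₂.1 h2 m hm)
  obtain ⟨z, hz⟩ := hgap.exists_not_meagre
  exact hz (hJ z)

lemma isMeagre_of_countable {s : Set ℝ} (hs : s.Countable) : IsMeagre s := by
  rw [← biUnion_of_singleton s]
  refine isMeagre_biUnion hs fun x _ => IsNowhereDense.isMeagre ?_
  rw [isClosed_singleton.isNowhereDense_iff, interior_singleton]

section
variable {κ : Cardinal}
  (hκ : IsLeast {c : Cardinal | ∃ A : Set ℝ, Cardinal.mk A = c ∧ ¬ IsMeagre A} κ)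
include hκ

lemma isMeagre_of_lt {s : Set ℝ} (hs : Cardinal.mk s < κ) : IsMeagre s := by
  by_contra h
  exact (hκ.2 ⟨s, rfl, h⟩).not_gt hs

lemma aleph0_lt : Cardinal.aleph0 < κ := by
  obtain ⟨A, hA, hAm⟩ := hκ.1
  by_contra h
  refine hAm (isMeagre_of_countable ?_)
  rw [← Cardinal.le_aleph0_iff_set_countable, hA]
  exact not_lt.1 h

lemma isMeagre_pairs {J : Type} (hJ : Cardinal.mk J < κ) (z : J × J → ℝ) :
    IsMeagre (range z) := by
  refine isMeagre_of_lt hκ (Cardinal.mk_range_le.trans_lt ?_)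
  rw [Cardinal.mk_prod, Cardinal.lift_id]
  exact Cardinal.mul_lt_of_lt (aleph0_lt hκ).le hJ hJ

theorem kappaT_of_lt [T2Space X] (hX : Cardinal.mk X < κ) : KappaT X :=
  fun F hFf hFd => expand_of_small id (isMeagre_pairs hκ hX) F hFf hFd

end

end Pool.Agent.P.MP_3edc48_gt
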