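import Pool.Agent.P.MP_3edc48_gt.Gen

set_option autoImplicit false

open Set Filter Topology

namespace Pool.Agent.P.MP_3edc48_gt

theorem kappaT_of_locally_lt {κ : Cardinal}
    (hκ : IsLeast {c : Cardinal | ∃ A : Set ℝ, Cardinal.mk A = c ∧ ¬ IsMeagre A} κ)
    {X : Type} [TopologicalSpace X] [T2Space X] (hX : ∀ x : X, ∃ U ∈ 𝓝 x, Cardinal.mk U < κ) :
    KappaT X := by
  intro F hFf hFd
  choose U hU hUκ using hX
  have hQ : (⋃ n, F n).Countable := countable_iUnion fun n => (hFf n).countable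
  let W : Set X := ⋃ q ∈ ⋃ n, F n, interior (U q)
  have hW : IsOpen W := isOpen_biUnion fun q _ => isOpen_interior
  have hJ : ∀ z : W × W → ℝ, IsMeagre (range z) := by
    intro z
    have hm : IsMeagre (⋃ q ∈ ⋃ n, F n, ⋃ q' ∈ ⋃ n, F n,
        z '' {p | p.1.1 ∈ U q ∧ p.2.1 ∈ U q'}) := by
      refine isMeagre_biUnion hQ fun q _ => isMeagre_biUnion hQ fun q' _ =>
        isMeagre_of_lt hκ (Cardinal.mk_image_le.trans_lt (lt_of_le_of_lt ?_
          (Cardinal.mul_lt_of_lt (aleph0_lt hκ).le (hUκ q) (hUκ q'))))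
      rw [Cardinal.mul_def]
      refine Cardinal.mk_le_of_injective
        (f := fun p => (⟨p.1.1.1, p.2.1⟩, ⟨p.1.2.1, p.2.2⟩)) fun p p' h => ?_
      simp only [Prod.mk.injEq, Subtype.mk.injEq] at h
      exact Subtype.ext (Prod.ext (Subtype.ext h.1) (Subtype.ext h.2))
    refine hm.mono ?_
    rintro _ ⟨p, rfl⟩
    obtain ⟨q, hq, h1⟩ := mem_iUnion₂.1 p.1.2
    obtain ⟨q', hq', h2⟩ := mem_iUnion₂.1 p.2.2
    exact mem_iUnion₂.2 ⟨q, hq, mem_iUnion₂.2 ⟨q', hq', p,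
      ⟨interior_subset h1, interior_subset h2⟩, rfl⟩⟩
  obtain ⟨A, hA, O, hOo, hFO, hfin⟩ := expand_of_small (fun j : W => j.1) hJ F hFf hFd
  refine ⟨A, hA, fun n => O n ∩ W, fun n => (hOo n).inter hW,
    fun n => subset_inter (hFO n) fun p hp => mem_iUnion₂.2 ⟨p, mem_iUnion.2 ⟨n, hp⟩,
      mem_interior_iff_mem_nhds.2 (hU p)⟩, fun y => ?_⟩
  by_cases hy : y ∈ W
  · exact (hfin ⟨y, hy⟩).subset fun n hn => ⟨hn.1, hn.2.1⟩
  · exact finite_empty.subset fun n hn => hy hn.2.2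

theorem main_loc : ∃ κ : Cardinal,
    IsGreatest {μ : Cardinal | ∀ (X : Type) [TopologicalSpace X] [T35Space X],
      (∀ x : X, ∃ U ∈ nhds x, Cardinal.mk U < μ) → KappaFrechet {f : X → ℝ // Continuous f}} κ ∧
    IsLeast {c : Cardinal | ∃ A : Set ℝ, Cardinal.mk A = c ∧ ¬ IsMeagre A} κ := by
  obtain ⟨κ, ⟨⟨X, hX, hXk⟩, -⟩, hκ⟩ := main
  refine ⟨κ, ⟨fun X _ _ h => (kappaT_of_locally_lt hκ h).kappaFrechet, fun μ hμ => ?_⟩, hκ⟩
  by_contra hlt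
  refine hXk (hμ X fun x => ⟨univ, univ_mem, ?_⟩)
  rw [Cardinal.mk_univ, hX]
  exact not_le.1 hlt

end Pool.Agent.P.MP_3edc48_gt
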