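import Pool.Agent.P.MP_3edc48_gt.Defs
import Pool.Agent.P.MP_3edc48_gt.Comb

set_option autoImplicit false

open Set Filter Topology

namespace Pool.Agent.P.MP_3edc48_gt

variable {X : Type} [MetricSpace X]

lemma exists_finset_of_nhds {X : Type} [TopologicalSpace X] (g : {f : X → ℝ // Continuous f})
    {V : Set {f : X → ℝ // Continuous f}} (hV : V ∈ 𝓝 g) :
    ∃ E : Finset X, ∀ h : {f : X → ℝ // Continuous f}, (∀ x ∈ E, h.1 x = g.1 x) → h ∈ V := by
  obtain ⟨W, hW, hWV⟩ := (mem_nhds_induced Subtype.val g V).1 hV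
  rw [nhds_pi, Filter.mem_pi'] at hW
  obtain ⟨E, t, ht, hE⟩ := hW
  refine ⟨E, fun h hh => hWV (hE ?_)⟩
  intro x hx
  rw [hh x hx]
  exact mem_of_mem_nhds (ht x)

/-- The metric form of the property of Sakai. -/
def Kappa (X : Type) [MetricSpace X] : Prop :=
  ∀ F : ℕ → Finset X, (∀ n m, n < m → Disjoint (F n) (F m)) →
    ∃ A : Set ℕ, A.Infinite ∧ ∃ ε : ℕ → ℝ, (∀ n, 0 < ε n) ∧
      ∀ y, {n | n ∈ A ∧ ∃ p ∈ F n, dist y p < ε n}.Finite

theorem Kappa.kappaFrechet (hX : Kappa X) : KappaFrechet {f : X → ℝ // Continuous f} := by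
  classical
  intro f U hU hf hfU
  have step : ∀ (E : Finset X) (n : ℕ), ∃ g : {f : X → ℝ // Continuous f},
      (∀ x ∈ E, |g.1 x - f.1 x| < 1 / ((n : ℝ) + 1)) ∧ ∃ E' : Finset X,
        ∀ h : {f : X → ℝ // Continuous f}, (∀ x ∈ E', h.1 x = g.1 x) → h ∈ U := by
    intro E n
    have hN : {g : {f : X → ℝ // Continuous f} |
        ∀ x ∈ E, |g.1 x - f.1 x| < 1 / ((n : ℝ) + 1)} ∈ 𝓝 f := by
      have : ∀ᶠ g : {f : X → ℝ // Continuous f} in 𝓝 f,
          ∀ x ∈ E, |g.1 x - f.1 x| < 1 / ((n : ℝ) + 1) := by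
        rw [Filter.eventually_all_finset]
        intro x _
        have hc : Continuous fun g : {f : X → ℝ // Continuous f} => |g.1 x - f.1 x| :=
          (((continuous_apply x).comp continuous_subtype_val).sub continuous_const).abs
        refine (isOpen_lt hc continuous_const).mem_nhds ?_
        simp only [mem_ofPred_eq, sub_self, abs_zero]
        positivity
      exact this
    obtain ⟨g, hg1, hg2⟩ := mem_closure_iff_nhds.1 hf _ hN
    exact ⟨g, hg1, exists_finset_of_nhds g (hU.mem_nhds hg2)⟩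
  choose g hg E' hE' using step
  let E : ℕ → Finset X := fun n => Nat.rec ∅ (fun n En => En ∪ E' En n) n
  have hEs : ∀ n, E (n + 1) = E n ∪ E' (E n) n := fun n => rfl
  have hEm : Monotone E := monotone_nat_of_le_succ fun n => by
    rw [hEs]; exact Finset.subset_union_left
  obtain ⟨A, hA, ε, hε, hfin⟩ := hX (fun n => E (n + 1) \ E n) (by
    intro n m hnm
    rw [Finset.disjoint_left]
    intro x hx hx'
    exact (Finset.mem_sdiff.1 hx').2 (hEm hnm (Finset.mem_sdiff.1 hx).1))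
  have hφ : ∀ n, ∃ φ : C(X, ℝ), (∀ y, (¬ ∃ p ∈ E (n + 1) \ E n, dist y p < ε n) → φ y = 0) ∧
      ∀ p ∈ E (n + 1) \ E n, φ p = 1 := by
    intro n
    have ho : IsOpen (⋃ p ∈ E (n + 1) \ E n, Metric.ball p (ε n)) :=
      isOpen_biUnion fun p _ => Metric.isOpen_ball
    obtain ⟨φ, h0, h1, -⟩ := exists_continuous_zero_one_of_isClosed ho.isClosed_compl
      (E (n + 1) \ E n).finite_toSet.isClosed (by
        rw [disjoint_compl_left_iff_subset]
        intro p hp
        exact mem_iUnion₂.2 ⟨p, hp, Metric.mem_ball_self (hε n)⟩)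
    refine ⟨φ, fun y hy => h0 ?_, fun p hp => h1 hp⟩
    intro hy'
    obtain ⟨p, hp, hyp⟩ := mem_iUnion₂.1 hy'
    exact hy ⟨p, hp, hyp⟩
  choose φ hφ0 hφ1 using hφ
  let δ : ℕ → ℝ := fun n => 1 / ((n : ℝ) + 1)
  have hδ : ∀ n, 0 < δ n := fun n => by positivity
  let d : ℕ → X → ℝ := fun n x => (g (E n) n).1 x - f.1 x
  let d' : ℕ → X → ℝ := fun n x => max (-δ n) (min (δ n) (d n x))
  have hdc : ∀ n, Continuous (d n) := fun n => (g (E n) n).2.sub f.2
  have hd'c : ∀ n, Continuous (d' n) := fun n =>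
    continuous_const.max (continuous_const.min (hdc n))
  let h : ℕ → {f : X → ℝ // Continuous f} := fun n =>
    ⟨fun x => f.1 x + d' n x + φ n x * (d n x - d' n x),
      (f.2.add (hd'c n)).add ((φ n).continuous.mul ((hdc n).sub (hd'c n)))⟩
  have hhU : ∀ n, h n ∈ U := by
    intro n
    apply hE' (E n) n
    intro x hx
    change f.1 x + d' n x + φ n x * (d n x - d' n x) = (g (E n) n).1 x
    rcases em (x ∈ E n) with hxE | hxE
    · have h1 : |d n x| < δ n := hg (E n) n x hxE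
      rw [abs_lt] at h1
      have h2 : d' n x = d n x := by
        simp only [d']
        rw [min_eq_right h1.2.le, max_eq_right h1.1.le]
      rw [h2]
      simp only [d]
      ring
    · have : x ∈ E (n + 1) \ E n :=
        Finset.mem_sdiff.2 ⟨by rw [hEs]; exact Finset.mem_union_right _ hx, hxE⟩
      rw [hφ1 n x this]
      simp only [d]
      ring
  have hT : Tendsto h (cofinite ⊓ 𝓟 A) (𝓝 f) := by
    rw [tendsto_subtype_rng, tendsto_pi_nhds]
    intro x
    have hδT : Tendsto δ (cofinite ⊓ 𝓟 A) (𝓝 0) := by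
      refine Tendsto.mono_left ?_ inf_le_left
      rw [Nat.cofinite_eq_atTop]
      exact tendsto_one_div_add_atTop_nhds_zero_nat
    have hev : ∀ᶠ n in cofinite ⊓ 𝓟 A, ¬ ∃ p ∈ E (n + 1) \ E n, dist x p < ε n := by
      rw [eventually_inf_principal, eventually_cofinite]
      refine (hfin x).subset ?_
      intro n hn
      by_contra hcon
      exact hn fun hA' hex => hcon ⟨hA', hex⟩
    rw [tendsto_iff_dist_tendsto_zero]
    refine squeeze_zero' (Eventually.of_forall fun n => dist_nonneg) (hev.mono ?_) hδT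
    intro n hn
    change dist (f.1 x + d' n x + φ n x * (d n x - d' n x)) (f.1 x) ≤ δ n
    rw [hφ0 n x hn, Real.dist_eq]
    have : f.1 x + d' n x + 0 * (d n x - d' n x) - f.1 x = d' n x := by ring
    rw [this, abs_le]
    exact ⟨le_max_left _ _, max_le (by linarith [hδ n]) (min_le_left _ _)⟩
  have hV : ∀ V ∈ 𝓝 f, {n | n ∈ A ∧ h n ∉ V}.Finite := by
    intro V hV
    have := hT.eventually_mem hV
    rw [eventually_inf_principal, eventually_cofinite] at this
    refine this.subset ?_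
    intro n hn
    simpa using hn
  have hfB : f ∉ h '' A := by
    rintro ⟨n, -, hn⟩
    exact hfU (hn ▸ hhU n)
  have hBinf : (h '' A).Infinite := by
    intro hB
    refine hA ((hV _ (hB.isClosed.isOpen_compl.mem_nhds hfB)).subset ?_)
    intro n hn
    exact ⟨hn, fun h' => h' ⟨n, hn, rfl⟩⟩
  refine ⟨h '' A, ?_, ?_, hfB, fun V hV' => ((hV V hV').image h).subset ?_⟩
  · rintro _ ⟨n, -, rfl⟩
    exact hhU n
  · have := hBinf.to_subtype
    have : Countable (h '' A) := ((Set.to_countable A).image h).to_subtype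
    exact Cardinal.mk_eq_aleph0 _
  · rintro _ ⟨⟨n, hn, rfl⟩, hnV⟩
    exact ⟨n, ⟨hn, hnV⟩, rfl⟩

theorem gap_of_not_kappa (hX : ¬ Kappa X) : ∃ x : X → Set ℕ, Gap x := by
  classical
  unfold Kappa at hX
  push Not at hX
  obtain ⟨F, hF, H⟩ := hX
  have hsep : ∀ m, ∃ δ : ℝ, 0 < δ ∧ ∀ n < m, ∀ p ∈ F n, ∀ q ∈ F m, 2 * δ ≤ dist p q := by
    intro m
    have : ∀ᶠ δ : ℝ in 𝓝[>] 0, ∀ n ∈ Finset.range m, ∀ p ∈ F n, ∀ q ∈ F m,
        2 * δ ≤ dist p q := by
      simp only [Filter.eventually_all_finset]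
      intro n hn p hp q hq
      have hne : p ≠ q := by
        rintro rfl
        exact Finset.disjoint_left.1 (hF n m (Finset.mem_range.1 hn)) hp hq
      have hpos : 0 < dist p q / 2 := half_pos (dist_pos.2 hne)
      filter_upwards [nhdsWithin_le_nhds (Iio_mem_nhds hpos)] with δ hδ
      have : δ < dist p q / 2 := hδ
      linarith
    obtain ⟨δ, hδ1, hδ2⟩ := (this.and self_mem_nhdsWithin).exists
    exact ⟨δ, hδ2, fun n hn => hδ1 n (Finset.mem_range.2 hn)⟩
  choose δ hδ hδs using hsep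
  refine ⟨fun y => {n | ∃ p ∈ F n, dist y p < δ n}, fun A hA h => ?_⟩
  have hε : ∀ n, ∃ ε : ℝ, 0 < ε ∧ ∀ m ≤ max n (h n), ε ≤ δ m := by
    intro n
    obtain ⟨m, -, hm⟩ := (Finset.range (max n (h n) + 1)).exists_min_image δ ⟨0, by simp⟩
    exact ⟨δ m, hδ m, fun k hk => hm k (Finset.mem_range.2 (Nat.lt_succ_of_le hk))⟩
  choose ε hε hεδ using hε
  obtain ⟨y, hy⟩ := H A hA ε hε
  refine ⟨y, Set.Infinite.mono ?_ hy⟩
  rintro n ⟨hnA, p, hp, hyp⟩
  refine ⟨hnA, ⟨p, hp, hyp.trans_le (hεδ n n (le_max_left _ _))⟩, ?_⟩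
  rintro m hnm hm ⟨q, hq, hyq⟩
  have h1 := hδs m n hnm p hp q hq
  have h2 := hεδ n m (hm.trans (le_max_right _ _))
  have h3 := dist_triangle_left p q y
  linarith

theorem exists_not_meagre_of_not_kappaFrechet
    (hX : ¬ KappaFrechet {f : X → ℝ // Continuous f}) :
    ∃ Z : Set ℝ, ¬ IsMeagre Z ∧ Cardinal.mk Z ≤ Cardinal.mk X := by
  obtain ⟨x, hx⟩ := gap_of_not_kappa fun h => hX h.kappaFrechet
  obtain ⟨z, hz⟩ := hx.exists_not_meagre
  refine ⟨range z, hz, Cardinal.mk_range_le.trans ?_⟩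
  have hinf : Infinite X := by
    by_contra hfin
    have : Finite X := not_infinite_iff_finite.1 hfin
    apply hz
    have hf : (range z).Finite := finite_range z
    refine IsNowhereDense.isMeagre ?_
    rw [hf.isClosed.isNowhereDense_iff]
    by_contra hne
    obtain ⟨w, hw⟩ := nonempty_iff_ne_empty.2 hne
    exact infinite_of_mem_nhds w (mem_interior_iff_mem_nhds.1 hw) hf
  simp [Cardinal.mul_eq_self (Cardinal.aleph0_le_mk X)]

end Pool.Agent.P.MP_3edc48_gt
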