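import Pool.Agent.P.MP_3edc48_gt.Lower

set_option autoImplicit false

open Set Filter Topology

namespace Pool.Agent.P.MP_3edc48_gt

lemma exists_points : ∃ p : ℕ → ℕ → ℝ, (∀ n m k l, p n k = p m l → n = m) ∧
    ∀ N : Set ℕ, N.Infinite → Dense {x | ∃ n ∈ N, ∃ k ≤ n, x = p n k} := by
  obtain ⟨q, hq⟩ := exists_surjective_nat ℚ
  refine ⟨fun n k => (q k : ℝ) + √2 * (1 / ((n : ℝ) + 1)), ?_, ?_⟩
  · intro n m k l h
    by_contra hne
    have hr : (1 / ((n : ℚ) + 1) - 1 / ((m : ℚ) + 1)) ≠ 0 := by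
      intro h0
      rw [sub_eq_zero, one_div, one_div, inv_inj] at h0
      apply hne
      exact_mod_cast add_right_cancel h0
    have h1 := irrational_sqrt_two.mul_ratCast hr
    apply h1
    refine ⟨q l - q k, ?_⟩
    push_cast
    linarith
  · intro N hN
    rw [Metric.dense_iff]
    intro x r hr
    obtain ⟨a, ha1, ha2⟩ := exists_rat_btwn (show x - r / 2 < x by linarith)
    obtain ⟨k, rfl⟩ := hq a
    have hT : Tendsto (fun n : ℕ => √2 * (1 / ((n : ℝ) + 1))) atTop (𝓝 (√2 * 0)) :=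
      tendsto_one_div_add_atTop_nhds_zero_nat.const_mul _
    rw [mul_zero] at hT
    obtain ⟨M, hM⟩ := eventually_atTop.1 (hT.eventually (Iio_mem_nhds (half_pos hr)))
    obtain ⟨n, hnN, hn⟩ := hN.exists_gt (max M k)
    have h1 : √2 * (1 / ((n : ℝ) + 1)) < r / 2 := hM n ((le_max_left _ _).trans hn.le)
    have h2 : 0 ≤ √2 * (1 / ((n : ℝ) + 1)) := by positivity
    refine ⟨_, ?_, n, hnN, k, (le_max_right _ _).trans hn.le, rfl⟩
    rw [Metric.mem_ball, Real.dist_eq, abs_lt]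
    constructor <;> linarith

theorem not_kappaFrechet {p : ℕ → ℕ → ℝ} (hp1 : ∀ n m k l, p n k = p m l → n = m)
    (hp2 : ∀ N : Set ℕ, N.Infinite → Dense {x | ∃ n ∈ N, ∃ k ≤ n, x = p n k})
    {X : Set ℝ} (hX : ¬ IsMeagre X) (hpX : ∀ n k, p n k ∈ X) :
    ¬ KappaFrechet {f : X → ℝ // Continuous f} := by
  classical
  intro H
  let P : ℕ → ℕ → X := fun n k => ⟨p n k, hpX n k⟩
  let U : Set {f : X → ℝ // Continuous f} := ⋃ n, ⋂ k ∈ Iic n, {g | 1 < g.1 (P n k)}
  have hev : ∀ x : X, Continuous fun g : {f : X → ℝ // Continuous f} => g.1 x := fun x =>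
    (continuous_apply x).comp continuous_subtype_val
  have hU : IsOpen U := isOpen_iUnion fun n => (finite_Iic n).isOpen_biInter fun k _ =>
    isOpen_lt continuous_const (hev _)
  let z : {f : X → ℝ // Continuous f} := ⟨fun _ => 0, continuous_const⟩
  have hzU : z ∉ U := by
    intro h
    obtain ⟨n, hn⟩ := mem_iUnion.1 h
    have : (1 : ℝ) < 0 := mem_iInter₂.1 hn 0 (Nat.zero_le n)
    linarith
  have hzc : z ∈ closure U := by
    rw [mem_closure_iff_nhds]
    intro V hV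
    obtain ⟨E, hE⟩ := exists_finset_of_nhds z hV
    have hfin : {n | ∃ k, P n k ∈ E}.Finite := by
      have : {n | ∃ k, P n k ∈ E} ⊆ ⋃ x ∈ E, {n | ∃ k, P n k = x} := by
        rintro n ⟨k, hk⟩
        exact mem_iUnion₂.2 ⟨_, hk, k, rfl⟩
      refine (E.finite_toSet.biUnion fun x _ => Set.Subsingleton.finite ?_).subset this
      rintro n ⟨k, hk⟩ m ⟨l, hl⟩
      exact hp1 n m k l (congrArg Subtype.val (hk.trans hl.symm))
    obtain ⟨n, hn⟩ := hfin.exists_notMem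
    obtain ⟨φ, h0, h1, -⟩ := exists_continuous_zero_one_of_isClosed E.finite_toSet.isClosed
      ((finite_Iic n).image (P n)).isClosed (by
        rw [Set.disjoint_left]
        rintro _ hx ⟨k, -, rfl⟩
        exact hn ⟨k, hx⟩)
    refine ⟨⟨fun x => 2 * φ x, continuous_const.mul φ.continuous⟩, hE _ ?_, ?_⟩
    · intro x hx
      change 2 * φ x = 0
      rw [h0 hx]
      simp
    · refine mem_iUnion.2 ⟨n, mem_iInter₂.2 fun k hk => ?_⟩
      change 1 < 2 * φ (P n k)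
      rw [h1 ⟨k, hk, rfl⟩]
      norm_num
  obtain ⟨B, hBU, hB, -, hconv⟩ := H z U hU hzc hzU
  obtain ⟨e⟩ : Nonempty (ℕ ≃ B) := Cardinal.eq.1 (by rw [hB, Cardinal.mk_nat])
  let b : ℕ → {f : X → ℝ // Continuous f} := fun i => (e i).1
  have hb : Function.Injective b := Subtype.val_injective.comp e.injective
  have hbB : ∀ i, b i ∈ B := fun i => (e i).2
  have hfin : ∀ x : X, {i | 1 < (b i).1 x}.Finite := by
    intro x
    have hV : {g : {f : X → ℝ // Continuous f} | g.1 x < 1} ∈ 𝓝 z :=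
      (isOpen_lt (hev x) continuous_const).mem_nhds (by
        change (0 : ℝ) < 1
        norm_num)
    refine ((hconv _ hV).preimage hb.injOn).subset ?_
    intro i hi
    exact ⟨hbB i, fun h => lt_asymm (show 1 < (b i).1 x from hi) h⟩
  have hn : ∀ i, ∃ n, ∀ k ≤ n, 1 < (b i).1 (P n k) := by
    intro i
    obtain ⟨n, hn⟩ := mem_iUnion.1 (hBU (hbB i))
    exact ⟨n, fun k hk => mem_iInter₂.1 hn k hk⟩
  choose n hn using hn
  have hO : ∀ i, ∃ O : Set ℝ, IsOpen O ∧ Subtype.val ⁻¹' O = {x : X | 1 < (b i).1 x} :=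
    fun i => isOpen_induced_iff.1 (isOpen_lt continuous_const (b i).2)
  choose O hOo hO using hO
  have hdense : ∀ m, Dense (⋃ i ∈ Ici m, O i) := by
    intro m
    have hinf : (n '' Ici m).Infinite := by
      intro hf
      refine Ici_infinite m (Finite.of_finite_fibers n hf fun c _ => ?_)
      refine (hfin (P c 0)).subset ?_
      rintro i ⟨-, rfl⟩
      exact hn i 0 (Nat.zero_le _)
    refine (hp2 _ hinf).mono ?_
    rintro x ⟨_, ⟨i, hi, rfl⟩, k, hk, rfl⟩
    refine mem_iUnion₂.2 ⟨i, hi, ?_⟩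
    have : P (n i) k ∈ Subtype.val ⁻¹' O i := by
      rw [hO]
      exact hn i k hk
    exact this
  have hres : (⋂ m, ⋃ i ∈ Ici m, O i) ∈ residual ℝ :=
    countable_iInter_mem.2 fun m =>
      residual_of_dense_open (isOpen_biUnion fun i _ => hOo i) (hdense m)
  apply hX
  refine mem_of_superset hres ?_
  intro y hy hyX
  obtain ⟨m, hm⟩ := (hfin ⟨y, hyX⟩).bddAbove
  obtain ⟨i, hi, hyi⟩ := mem_iUnion₂.1 (mem_iInter.1 hy (m + 1))
  have h1 : (⟨y, hyX⟩ : X) ∈ Subtype.val ⁻¹' O i := hyi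
  rw [hO] at h1
  have h2 : i ≤ m := hm h1
  have h3 : m + 1 ≤ i := hi
  omega

theorem main : ∃ κ : Cardinal,
    IsLeast {c : Cardinal | ∃ X : Set ℝ, Cardinal.mk X = c ∧
      ¬ KappaFrechet {f : X → ℝ // Continuous f}} κ ∧
    IsLeast {c : Cardinal | ∃ A : Set ℝ, Cardinal.mk A = c ∧ ¬ IsMeagre A} κ := by
  have hne : {c : Cardinal | ∃ A : Set ℝ, Cardinal.mk A = c ∧ ¬ IsMeagre A}.Nonempty :=
    ⟨_, univ, rfl, not_isMeagre_of_isOpen isOpen_univ univ_nonempty⟩
  obtain ⟨κ, hκ⟩ : ∃ κ, IsLeast {c : Cardinal | ∃ A : Set ℝ, Cardinal.mk A = c ∧ ¬ IsMeagre A} κ :=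
    ⟨_, csInf_mem hne, fun c hc => csInf_le' hc⟩
  have hlow : ∀ X : Set ℝ, ¬ KappaFrechet {f : X → ℝ // Continuous f} → κ ≤ Cardinal.mk X := by
    intro X hX
    obtain ⟨Z, hZ, hle⟩ := exists_not_meagre_of_not_kappaFrechet hX
    exact (hκ.2 ⟨Z, rfl, hZ⟩).trans hle
  refine ⟨κ, ⟨?_, ?_⟩, hκ⟩
  · obtain ⟨A, hA, hAm⟩ := hκ.1
    obtain ⟨p, hp1, hp2⟩ := exists_points
    have hnk : ¬ KappaFrechet
        {f : (A ∪ range (fun q : ℕ × ℕ => p q.1 q.2) : Set ℝ) → ℝ // Continuous f} :=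
      not_kappaFrechet hp1 hp2 (fun h => hAm (h.mono subset_union_left))
        fun n k => Or.inr ⟨(n, k), rfl⟩
    refine ⟨_, le_antisymm ?_ (hlow _ hnk), hnk⟩
    have hinf : A.Infinite := by
      intro hf
      apply hAm
      refine IsNowhereDense.isMeagre ?_
      rw [hf.isClosed.isNowhereDense_iff]
      by_contra hne
      obtain ⟨w, hw⟩ := nonempty_iff_ne_empty.2 hne
      exact infinite_of_mem_nhds w (mem_interior_iff_mem_nhds.1 hw) hf
    have h0 : Cardinal.aleph0 ≤ Cardinal.mk A := Cardinal.infinite_iff.1 hinf.to_subtype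
    have h1 : Cardinal.mk (range (fun q : ℕ × ℕ => p q.1 q.2)) ≤ Cardinal.mk A :=
      (Cardinal.mk_le_aleph0_iff.2 (countable_range _).to_subtype).trans h0
    rw [← hA]
    exact (Cardinal.mk_union_le _ _).trans (Cardinal.add_le_of_le h0 le_rfl h1)
  · rintro c ⟨X, rfl, hX⟩
    exact hlow X hX

end Pool.Agent.P.MP_3edc48_gt
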